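import Pool.Agent.Y114.OP.Stm
import Pool.Agent.Y212.RM.Sym

/-!
# A reductive subalgebra of maximal rank with the same centralizer is everything
-/

set_option autoImplicit false

namespace Pool.Agent.Y655.OP

open Module Pool.Agent.Y114.RM Pool.Agent.Y212.RM
open Pool.Agent.Y114.OP (S_LAT)

section

variable {K : Type} [Field K] {V : Type} [AddCommGroup V] [Module K V]

/-- weight vectors for the torus -/
def Wv (t : Submodule K (End K V)) (χ : t → K) (X : End K V) : Prop :=
  ∀ a : t, (a : End K V) * X - X * a = χ a • X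

theorem Wv.brak {t : Submodule K (End K V)} {χ ψ : t → K} {X Y : End K V} (hX : Wv t χ X)
    (hY : Wv t ψ Y) : Wv t (χ + ψ) (X * Y - Y * X) := by
  intro a
  have e : (a : End K V) * (X * Y - Y * X) - (X * Y - Y * X) * a =
      ((a : End K V) * X - X * a) * Y + X * ((a : End K V) * Y - Y * a) -
        ((a : End K V) * Y - Y * a) * X - Y * ((a : End K V) * X - X * a) := by noncomm_ring
  rw [e, hX a, hY a, Pi.add_apply, smul_mul_assoc, smul_mul_assoc, mul_smul_comm, mul_smul_comm,
    smul_sub, add_smul, add_smul]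
  abel

/-- the roots -/
def Rt (L t : Submodule K (End K V)) : Set (t → K) :=
  {χ | χ ≠ 0 ∧ ∃ X ∈ L, X ≠ 0 ∧ Wv t χ X}

variable [CharZero K] [IsAlgClosed K] [FiniteDimensional K V]

attribute [local instance 100] LieRing.ofAssociativeRing

theorem sl2_of {h e f : End K V} (hh0 : h ≠ 0) (hef : e * f - f * e = h)
    (hhe : h * e - e * h = 2 • e) (hhf : h * f - f * h = -(2 • f)) : IsSl2Triple h e f :=
  ⟨hh0, by rw [← hef]; rfl, by rw [← hhe]; rfl, by rw [← hhf]; rfl⟩

/-- elements of positive weight are not killed by the lowering operator -/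
theorem low_ne {h e f : End K V} (hh0 : h ≠ 0) (hef : e * f - f * e = h)
    (hhe : h * e - e * h = 2 • e) (hhf : h * f - f * h = -(2 • f)) {x : End K V} (hx : x ≠ 0)
    {n : ℤ} (hn : 1 ≤ n) (hc : h * x - x * h = (n : K) • x) : f * x - x * f ≠ 0 := by
  intro h0
  have hsl := sl2_of hh0 hef hhe hhf
  have hprim : hsl.symm.HasPrimitiveVectorWith x (-(n : K)) := by
    refine ⟨hx, ?_, ?_⟩
    · rw [neg_lie, neg_smul, neg_inj]
      exact hc
    · exact h0
  obtain ⟨k, hk⟩ := hprim.exists_nat
  have h1 : ((n + k : ℤ) : K) = 0 := by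
    push_cast
    rw [← hk]
    ring
  have h2 : n + k = 0 := by exact_mod_cast h1
  omega

/-- weights are integers -/
theorem int_wt {h e f : End K V} (hh0 : h ≠ 0) (hef : e * f - f * e = h)
    (hhe : h * e - e * h = 2 • e) (hhf : h * f - f * h = -(2 • f)) {x : End K V} (hx : x ≠ 0)
    {c : K} (hc : h * x - x * h = c • x) : ∃ n : ℤ, c = n := by
  have hpow : ∀ j : ℕ, adE h (((adE e) ^ j) x) = (c + 2 * j) • ((adE e) ^ j) x := by
    intro j
    induction j with
    | zero => simpa [adE_apply] using hc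
    | succ j ih =>
      rw [pow_succ', Module.End.mul_apply]
      obtain ⟨y, hy⟩ : ∃ y, y = ((adE e) ^ j) x := ⟨_, rfl⟩
      rw [← hy] at ih ⊢
      rw [adE_apply] at ih
      rw [adE_apply, adE_apply]
      have e1 : h * (e * y - y * e) - (e * y - y * e) * h =
          (h * e - e * h) * y - y * (h * e - e * h) +
            (e * (h * y - y * h) - (h * y - y * h) * e) := by noncomm_ring
      rw [e1, hhe, ih, ← ofNat_smul_eq_nsmul K, smul_mul_assoc, mul_smul_comm, smul_mul_assoc,
        mul_smul_comm, ← smul_sub, ← smul_sub, ← add_smul]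
      congr 1
      push_cast
      ring
  have hex : ∃ j : ℕ, ((adE e) ^ j) x = 0 := by
    by_contra hcon
    push Not at hcon
    have hinf : Set.Infinite {μ | (adE h).HasEigenvalue μ} := by
      refine Set.infinite_of_injective_forall_mem (f := fun j : ℕ => c + 2 * (j : K)) ?_ ?_
      · intro i j hij
        simp only [add_right_inj] at hij
        have := mul_left_cancel₀ two_ne_zero hij
        exact_mod_cast this
      · intro j
        exact End.hasEigenvalue_of_hasEigenvector ⟨End.mem_eigenspace_iff.2 (hpow j), hcon j⟩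
    exact hinf (End.finite_hasEigenvalue _)
  classical
  have hJ := Nat.find_spec hex
  obtain ⟨J, hJe⟩ : ∃ J, J = Nat.find hex := ⟨_, rfl⟩
  have hmin : ∀ i < J, ((adE e) ^ i) x ≠ 0 := fun i hi => Nat.find_min hex (hJe ▸ hi)
  rw [← hJe] at hJ
  match J, hJ, hmin with
  | 0, hJ, _ => exact absurd hJ hx
  | i + 1, hJ, hmin =>
    have hm := hmin i (Nat.lt_succ_self i)
    rw [pow_succ', Module.End.mul_apply] at hJ
    have hsl := sl2_of hh0 hef hhe hhf
    have hprim : hsl.HasPrimitiveVectorWith (((adE e) ^ i) x) (c + 2 * i) :=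
      ⟨hm, hpow i, hJ⟩
    obtain ⟨n, hn⟩ := hprim.exists_nat
    refine ⟨n - 2 * i, ?_⟩
    push_cast
    rw [← hn]
    ring

/-! ### the lattice -/

/-- weight spaces of the torus -/
def Ws (t : Submodule K (End K V)) (ν : t → K) : Submodule K V :=
  ⨅ a : t, (a : End K V).maxGenEigenspace (ν a)

theorem mem_Ws {t : Submodule K (End K V)} (hd : ∀ a ∈ t, ⨆ μ, End.eigenspace a μ = ⊤)
    {ν : t → K} {x : V} : x ∈ Ws t ν ↔ ∀ a : t, (a : End K V) x = ν a • x := by
  unfold Ws
  rw [Submodule.mem_iInf]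
  refine forall_congr' fun a => ?_
  obtain ⟨p, hp, hpa⟩ := exists_squarefree (hd a a.2)
  have h1 : Module.End.IsSemisimple (a : End K V) :=
    End.isSemisimple_of_squarefree_aeval_eq_zero hp hpa
  rw [h1.isFinitelySemisimple.maxGenEigenspace_eq_eigenspace, End.mem_eigenspace_iff]

theorem Ws_top {t : Submodule K (End K V)} (hc : ∀ a ∈ t, ∀ b ∈ t, a * b = b * a) :
    ⨆ ν : t → K, Ws t ν = ⊤ := by
  refine End.iSup_iInf_maxGenEigenspace_eq_top_of_iSup_maxGenEigenspace_eq_top_of_commute
    (fun a : t => (a : End K V)) ?_ (fun a => End.iSup_maxGenEigenspace_eq_top _)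
  intro a b _
  exact hc a a.2 b b.2

theorem Ws_indep {t : Submodule K (End K V)} (hc : ∀ a ∈ t, ∀ b ∈ t, a * b = b * a) :
    iSupIndep (Ws t) := by
  refine End.independent_iInf_maxGenEigenspace_of_forall_mapsTo (fun a : t => (a : End K V)) ?_
  intro a b φ
  have h : Commute (a : End K V) b := hc a a.2 b b.2
  exact End.mapsTo_maxGenEigenspace_of_comm h.symm φ

theorem Ws_map {t : Submodule K (End K V)} (hd : ∀ a ∈ t, ⨆ μ, End.eigenspace a μ = ⊤)
    {χ ν : t → K} {X : End K V} (hX : Wv t χ X) {x : V} (hx : x ∈ Ws t ν) :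
    X x ∈ Ws t (ν + χ) := by
  rw [mem_Ws hd] at hx ⊢
  intro a
  have h := congrArg (fun T : End K V => T x) (hX a)
  simp only [LinearMap.sub_apply, Module.End.mul_apply, LinearMap.smul_apply] at h
  rw [hx a, map_smul] at h
  rw [Pi.add_apply, add_smul, ← h]
  abel

theorem root_mem {G L t : Submodule K (End K V)} (hL : IsLie L) (htL : t ≤ L)
    (hd : ∀ a ∈ t, ⨆ μ, End.eigenspace a μ = ⊤) (hc : ∀ a ∈ t, ∀ b ∈ t, a * b = b * a)
    (hY : ∀ Y : End K V, (∀ X ∈ L, X * Y = Y * X) → ∀ X ∈ G, X * Y = Y * X)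
    {b : t → K} {X : End K V} (hX : X ∈ G) (hXw : Wv t b X) (hX0 : X ≠ 0) :
    b ∈ AddSubgroup.closure (Rt L t) := by
  classical
  by_contra hb
  apply hX0
  have key : ∀ ν : t → K, ∀ x ∈ Ws t ν, X x = 0 := by
    intro ν x hx
    obtain ⟨W, hW⟩ : ∃ W, W = ⨆ ψ ∈ {ψ : t → K | ψ - ν ∈ AddSubgroup.closure (Rt L t)}, Ws t ψ :=
      ⟨_, rfl⟩
    obtain ⟨W', hW'⟩ : ∃ W', W' = ⨆ ψ ∈ {ψ : t → K | ψ - ν ∉ AddSubgroup.closure (Rt L t)}, Ws t ψ :=
      ⟨_, rfl⟩
    have hdis : Disjoint W W' := by
      rw [hW, hW']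
      refine (Ws_indep hc).disjoint_biSup_biSup ?_
      rw [Set.disjoint_left]
      intro ψ h1 h2
      exact h2 h1
    have hsup : W ⊔ W' = ⊤ := by
      rw [eq_top_iff, ← Ws_top hc]
      refine iSup_le fun ψ => ?_
      by_cases h : ψ - ν ∈ AddSubgroup.closure (Rt L t)
      · refine le_trans ?_ le_sup_left
        rw [hW]
        exact le_biSup (Ws t) (i := ψ) h
      · refine le_trans ?_ le_sup_right
        rw [hW']
        exact le_biSup (Ws t) (i := ψ) h
    have hcompl : IsCompl W W' := ⟨hdis, codisjoint_iff.2 hsup⟩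
    have hpres : ∀ Z ∈ L, (∀ y ∈ W, Z y ∈ W) ∧ ∀ y ∈ W', Z y ∈ W' := by
      refine wt_induction t hd hc L (fun a ha Z hZ => hL a (htL ha) Z hZ) (P := fun Z =>
        (∀ y ∈ W, Z y ∈ W) ∧ ∀ y ∈ W', Z y ∈ W') ?_ ?_ ?_
      · exact ⟨fun y _ => W.zero_mem, fun y _ => W'.zero_mem⟩
      · intro A B _ _ hA hB
        exact ⟨fun y hy => W.add_mem (hA.1 y hy) (hB.1 y hy),
          fun y hy => W'.add_mem (hA.2 y hy) (hB.2 y hy)⟩
      · intro χ Z hZ hZw
        by_cases hZ0 : Z = 0
        · rw [hZ0]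
          exact ⟨fun y _ => W.zero_mem, fun y _ => W'.zero_mem⟩
        have hχ : χ ∈ AddSubgroup.closure (Rt L t) := by
          by_cases h0 : χ = 0
          · rw [h0]; exact AddSubgroup.zero_mem _
          · exact AddSubgroup.subset_closure ⟨h0, Z, hZ, hZ0, hZw⟩
        constructor
        · intro y hy
          have hle : W ≤ W.comap Z := by
            conv_lhs => rw [hW]
            refine iSup₂_le fun ψ hψ y hy => ?_
            rw [Submodule.mem_comap]
            have h1 := Ws_map hd (X := Z) hZw hy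
            rw [hW]
            refine (le_biSup (Ws t) (i := ψ + χ) ?_) h1
            show ψ + χ - ν ∈ AddSubgroup.closure (Rt L t)
            have e : ψ + χ - ν = (ψ - ν) + χ := by abel
            rw [e]
            exact AddSubgroup.add_mem _ hψ hχ
          exact hle hy
        · intro y hy
          have hle : W' ≤ W'.comap Z := by
            conv_lhs => rw [hW']
            refine iSup₂_le fun ψ hψ y hy => ?_
            rw [Submodule.mem_comap]
            have h1 := Ws_map hd (X := Z) hZw hy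
            rw [hW']
            refine (le_biSup (Ws t) (i := ψ + χ) ?_) h1
            show ψ + χ - ν ∉ AddSubgroup.closure (Rt L t)
            intro h2
            apply hψ
            have e : ψ - ν = (ψ + χ - ν) - χ := by abel
            rw [e]
            exact AddSubgroup.sub_mem _ h2 hχ
          exact hle hy
    -- the projection
    have hpr : ∀ y ∈ W, ∀ y' ∈ W', (W.subtype ∘ₗ W.projectionOnto W' hcompl) (y + y') = y := by
      intro y hy y' hy'
      rw [LinearMap.comp_apply, map_add]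
      have h1 := Submodule.projectionOnto_apply_left hcompl ⟨y, hy⟩
      have h2 := Submodule.projectionOnto_apply_right hcompl ⟨y', hy'⟩
      simp only at h1 h2
      rw [h1, h2]
      simp
    have hcomm : ∀ Z ∈ L, Z * (W.subtype ∘ₗ W.projectionOnto W' hcompl) =
        (W.subtype ∘ₗ W.projectionOnto W' hcompl) * Z := by
      intro Z hZ
      apply LinearMap.ext
      intro y
      have hy : y ∈ W ⊔ W' := by rw [hsup]; trivial
      obtain ⟨y1, hy1, y2, hy2, rfl⟩ := Submodule.mem_sup.1 hy
      rw [Module.End.mul_apply, Module.End.mul_apply, hpr y1 hy1 y2 hy2, map_add,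
        hpr _ ((hpres Z hZ).1 y1 hy1) _ ((hpres Z hZ).2 y2 hy2)]
    have hXc := hY _ hcomm X hX
    have hxW : x ∈ W := by
      rw [hW]
      refine (le_biSup (Ws t) (i := ν) ?_) hx
      show ν - ν ∈ AddSubgroup.closure (Rt L t)
      rw [sub_self]
      exact AddSubgroup.zero_mem _
    have h1 : X x ∈ W := by
      have h2 := congrArg (fun T : End K V => T x) hXc
      simp only [Module.End.mul_apply] at h2
      have h3 := hpr x hxW 0 W'.zero_mem
      rw [add_zero] at h3
      rw [h3] at h2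
      rw [h2]
      exact Submodule.coe_mem _
    have h4 : X x ∈ W' := by
      rw [hW']
      refine (le_biSup (Ws t) (i := ν + b) ?_) (Ws_map hd hXw hx)
      show ν + b - ν ∉ AddSubgroup.closure (Rt L t)
      rw [add_sub_cancel_left]
      exact hb
    exact Submodule.disjoint_def.1 hdis _ h1 h4
  apply LinearMap.ext
  intro x
  have hx : x ∈ ⨆ ν : t → K, Ws t ν := by rw [Ws_top hc]; trivial
  induction hx using Submodule.iSup_induction' with
  | zero => simp
  | add x y _ _ hx hy => rw [map_add, hx, hy]; simp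
  | mem ν x hx => exact key ν x hx

/-- sums of roots of `L` -/
theorem sum_mem {G L t : Submodule K (End K V)} (T : Tor G t) (hLG : L ≤ G) (hL : IsLie L) :
    ∀ (m : ℕ) (l : List (t → K)), l.length = m → (∀ y ∈ l, y ∈ Rt L t) →
    ∀ X ∈ G, Wv t l.sum X → X ≠ 0 → l.sum ≠ 0 → X ∈ L := by
  classical
  intro m
  induction m with
  | zero =>
    intro l hl _ X _ _ _ h0
    rw [List.length_eq_zero_iff] at hl
    subst hl
    exact absurd List.sum_nil h0
  | succ m ih =>
    intro l hl hR X hX hXw hX0 hs0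
    obtain ⟨a0, ha0⟩ : ∃ a0 : t, l.sum a0 ≠ 0 := by
      by_contra hcon
      push Not at hcon
      exact hs0 (funext hcon)
    obtain ⟨f, hf, hfw, htr, h, hht, hh0, hef, hhe, hhf⟩ := T.exists_triple hX hXw hX0 ha0
    have hb2 : l.sum ⟨h, hht⟩ = 2 := by
      have h1 := hXw ⟨h, hht⟩
      change h * X - X * h = l.sum ⟨h, hht⟩ • X at h1
      rw [hhe, ← ofNat_smul_eq_nsmul K] at h1
      exact (smul_left_injective K hX0 h1).symm
    have hint : ∀ y ∈ l, ∃ n : ℤ, y ⟨h, hht⟩ = n := by
      intro y hy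
      obtain ⟨-, x, hxL, hx0, hxw⟩ := hR y hy
      exact int_wt hh0 hef hhe hhf hx0 (hxw ⟨h, hht⟩)
    obtain ⟨y, hyl, n, hyn, hn⟩ : ∃ y ∈ l, ∃ n : ℤ, y ⟨h, hht⟩ = n ∧ 1 ≤ n := by
      by_contra hcon
      push Not at hcon
      have h1 : ∀ l' : List (t → K), (∀ y ∈ l', y ∈ l) → ∃ k : ℤ, l'.sum ⟨h, hht⟩ = k ∧ k ≤ 0 := by
        intro l'
        induction l' with
        | nil => intro _; exact ⟨0, by simp, le_rfl⟩
        | cons y l' ih' =>
          intro hl'
          obtain ⟨k, hk, hk0⟩ := ih' fun z hz => hl' z (List.mem_cons_of_mem _ hz)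
          obtain ⟨n, hn⟩ := hint y (hl' y List.mem_cons_self)
          have h2 := hcon y (hl' y List.mem_cons_self) n hn
          refine ⟨n + k, ?_, by omega⟩
          rw [List.sum_cons, Pi.add_apply, hn, hk]
          push_cast
          ring
      obtain ⟨k, hk, hk0⟩ := h1 l fun _ h => h
      rw [hb2] at hk
      have h2 : (2 : ℤ) = k := by exact_mod_cast hk
      omega
    obtain ⟨hy0, x, hxL, hx0, hxw⟩ := hR y hyl
    obtain ⟨b0, hb0⟩ : ∃ b0 : t, y b0 ≠ 0 := by
      by_contra hcon
      push Not at hcon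
      exact hy0 (funext hcon)
    by_cases hyb : y = l.sum
    · obtain ⟨c, hcx⟩ := T.mem_span (hLG hxL) hX hxw (hyb ▸ hXw) hx0 hb0
      rw [hcx]
      exact L.smul_mem c hxL
    have hperm := List.perm_cons_erase hyl
    have hsum : l.sum = y + (l.erase y).sum := by
      rw [hperm.sum_eq, List.sum_cons]
    have hz0 : f * x - x * f ≠ 0 := by
      refine low_ne hh0 hef hhe hhf hx0 hn ?_
      rw [← hyn]
      exact hxw ⟨h, hht⟩
    have hzw : Wv t (-(l.erase y).sum) (f * x - x * f) := by
      have h1 : Wv t (fun a => -l.sum a) f := hfw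
      have h2 := Wv.brak h1 hxw
      have e : ((fun a => -l.sum a) + y : t → K) = -(l.erase y).sum := by
        funext a
        rw [hsum]
        simp
      rwa [e] at h2
    obtain ⟨u, hu, huw, hutr⟩ := T.exists_dual (T.lie f hf x (hLG hxL)) hzw hz0
    have huw' : Wv t (l.erase y).sum u := by
      intro a
      rw [huw a]
      simp
    have hu0 : u ≠ 0 := by
      rintro rfl
      rw [mul_zero, map_zero] at hutr
      exact hutr rfl
    have hse : (l.erase y).sum ≠ 0 := by
      intro h0
      rw [h0, add_zero] at hsum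
      exact hyb hsum.symm
    have huL : u ∈ L := by
      refine ih (l.erase y) ?_ ?_ u hu huw' hu0 hse
      · rw [List.length_erase_of_mem hyl, hl]
        rfl
      · intro z hz
        exact hR z (List.mem_of_mem_erase hz)
    have hxu : x * u - u * x ∈ L := hL x hxL u huL
    have hxuw : Wv t l.sum (x * u - u * x) := by
      rw [hsum]
      exact Wv.brak hxw huw'
    have hxu0 : x * u - u * x ≠ 0 := by
      intro h0
      apply hutr
      have e1 : LinearMap.trace K V ((f * x - x * f) * u) =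
          LinearMap.trace K V ((x * u - u * x) * f) := by
        rw [sub_mul, sub_mul, map_sub, map_sub, mul_assoc f x u, LinearMap.trace_mul_comm K f (x * u),
          mul_assoc x f u, LinearMap.trace_mul_comm K x (f * u), mul_assoc f u x,
          LinearMap.trace_mul_comm K f (u * x)]
      rw [e1, h0, zero_mul, map_zero]
    obtain ⟨c, hcx⟩ := T.mem_span (hLG hxu) hX hxuw hXw hxu0 ha0
    rw [hcx]
    exact L.smul_mem c hxu

end

/-- **a reductive subalgebra of maximal rank with the same centralizer** -/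
theorem lat : S_LAT := by
  intro K _ _ _ V _ _ _ G L t hG hGn hLG hL hLn htL hd hc hcen hY
  have T : Tor G t := ⟨hG, hGn, htL.trans hLG, hd, hc, hcen⟩
  have TL : Tor L t := ⟨hL, hLn, htL, hd, hc, fun x hx h => hcen x (hLG hx) h⟩
  refine le_antisymm hLG ?_
  show ∀ X ∈ G, X ∈ L
  refine wt_induction t hd hc G (fun a ha X hX => hG a (hLG (htL ha)) X hX)
    (P := fun X => X ∈ L) L.zero_mem (fun X Y _ _ hX hY => L.add_mem hX hY) ?_
  intro χ X hX hwt
  show X ∈ L
  by_cases hX0 : X = 0
  · rw [hX0]; exact L.zero_mem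
  by_cases hχ : χ = 0
  · apply htL
    apply hcen X hX
    intro a ha
    have h1 := hwt ⟨a, ha⟩
    rw [hχ, Pi.zero_apply, zero_smul] at h1
    exact sub_eq_zero.1 h1
  have hmem := root_mem hL htL hd hc hY hX hwt hX0
  have hmem' : χ ∈ AddSubmonoid.closure (Rt L t ∪ -Rt L t) := by
    rw [← AddSubgroup.closure_toAddSubmonoid]
    exact hmem
  obtain ⟨l, hl, hls⟩ := AddSubmonoid.exists_list_of_mem_closure hmem'
  subst hls
  refine sum_mem T hLG hL l.length l rfl ?_ X hX hwt hX0 hχ
  intro y hy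
  rcases hl y hy with h | ⟨h0, Z, hZ, hZ0, hZw⟩
  · exact h
  · obtain ⟨f, hf, hfw, htr⟩ := TL.exists_dual hZ hZw hZ0
    refine ⟨fun h => h0 (by rw [h, neg_zero]), f, hf, ?_, ?_⟩
    · rintro rfl
      rw [mul_zero, map_zero] at htr
      exact htr rfl
    · intro a
      rw [hfw a]
      simp

end Pool.Agent.Y655.OP
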